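import Mathlib

/-!
# Connectivity codes and Ramanujan graphs

Definitions for the problem `MP_7d4bc7_co`.
-/

namespace Pool.Agent.Work.MP_7d4bc7_co

variable {V : Type} [Fintype V]

/-- A connectivity code for `H`: a finite family of spanning subgraphs of `H` such that the
symmetric difference of any two distinct members is connected (on the full vertex set). -/
def IsConnectivityCode (H : SimpleGraph V) (𝒢 : Finset (SimpleGraph V)) : Prop :=
  (∀ G ∈ 𝒢, G ≤ H) ∧ ∀ G ∈ 𝒢, ∀ G' ∈ 𝒢, G ≠ G' → (symmDiff G G').Connected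

/-- `m(H)`: the largest size of a connectivity code for `H`. -/
noncomputable def maxCode (H : SimpleGraph V) : ℕ :=
  sSup {k | ∃ 𝒢 : Finset (SimpleGraph V), IsConnectivityCode H 𝒢 ∧ 𝒢.card = k}

/-- A `d`-regular graph `H` on `n` vertices with adjacency eigenvalues
`d = λ₀ ≥ λ₁ ≥ ... ≥ λₙ₋₁` is Ramanujan if `|λ| ≤ 2 √(d - 1)` for every eigenvalue `λ` of the list
other than `λ₀` and, when `H` is bipartite, `λₙ₋₁`. -/
def IsRamanujan (H : SimpleGraph V) [DecidableEq V] [DecidableRel H.Adj] (d : ℕ) : Prop :=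
  H.IsRegularOfDegree d ∧
    ∀ i : Fin (Fintype.card V), (i : ℕ) ≠ 0 → ¬ (H.IsBipartite ∧ (i : ℕ) + 1 = Fintype.card V) →
      |(H.isHermitian_adjMatrix ℝ).eigenvalues₀ i| ≤ 2 * Real.sqrt ((d : ℝ) - 1)

/-- The square of the cycle of length `16`: the vertices are the integers modulo `16`, and two
vertices are adjacent when they differ by `1` or `2` modulo `16`. -/
abbrev squareCycle16 : SimpleGraph (ZMod 16) := SimpleGraph.circulantGraph {1, 2}

/-- Two copies of `K₆`, each with the two disjoint edges `{0,1}` and `{2,3}` removed, joined by the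
four edges between the two copies of the vertices `0, 1, 2, 3`. -/
def doubleK6 : SimpleGraph (Fin 2 × Fin 6) where
  Adj x y := (x.1 = y.1 ∧ x.2 ≠ y.2 ∧ ¬ (x.2.val / 2 = y.2.val / 2 ∧ x.2.val < 4)) ∨
    (x.1 ≠ y.1 ∧ x.2 = y.2 ∧ x.2.val < 4)
  symm := ⟨by
    intro x y h
    revert x y
    decide⟩
  loopless := ⟨by
    intro x
    revert x
    decide⟩

instance : DecidableRel doubleK6.Adj := fun x y => by
  unfold doubleK6
  infer_instance

end Pool.Agent.Work.MP_7d4bc7_co
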