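import Mathlib
import Pool.Agent.Work.MP_7d4bc7_co.Defs

/-!
# The code bound for the square of the 16-cycle
-/

namespace Pool.Agent.Work.MP_7d4bc7_co

open Finset

/-- The adjacency of the square of the cycle. -/
theorem adj_iff (u v : ZMod 16) :
    squareCycle16.Adj u v ↔ (v = u + 1 ∨ v = u + 2 ∨ u = v + 1 ∨ u = v + 2) := by
  revert u v
  decide

/-- The pattern of a graph at the gap after the vertex `i`. -/
noncomputable def pattern (i : ZMod 16) (G : SimpleGraph (ZMod 16)) : Bool × Bool × Bool := by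
  classical
  exact (decide (G.Adj i (i + 1)), decide (G.Adj i (i + 2)), decide (G.Adj (i - 1) (i + 1)))

/-- The interval between two gaps. -/
def interval (i j : ZMod 16) : Finset (ZMod 16) :=
  univ.filter fun x => i.val < x.val ∧ x.val ≤ j.val

/-- An edge of the square of the cycle leaving the interval crosses one of the two gaps. -/
theorem crossing (i j : ZMod 16) (hij : i.val < j.val) (x y : ZMod 16)
    (hxy : squareCycle16.Adj x y) (hx : x ∈ interval i j) (hy : y ∉ interval i j) :
    (∃ k, (k = i ∨ k = j) ∧ ((x = k ∧ y = k + 1) ∨ (x = k ∧ y = k + 2) ∨ (x = k - 1 ∧ y = k + 1) ∨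
      (y = k ∧ x = k + 1) ∨ (y = k ∧ x = k + 2) ∨ (y = k - 1 ∧ x = k + 1))) := by
  revert i j x y
  decide +kernel

theorem mem_interval_right (i j : ZMod 16) (hij : i.val < j.val) : j ∈ interval i j := by
  simp [interval, hij]

theorem notMem_interval_left (i j : ZMod 16) : i ∉ interval i j := by
  simp [interval]

/-- Two subgraphs of the square of the cycle which have the same pattern at two different gaps
have a disconnected symmetric difference. -/
theorem not_connected_of_pattern {G G' : SimpleGraph (ZMod 16)} (hG : G ≤ squareCycle16)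
    (hG' : G' ≤ squareCycle16) {i j : ZMod 16} (hij : i.val < j.val)
    (hi : pattern i G = pattern i G') (hj : pattern j G = pattern j G') :
    ¬ (symmDiff G G').Connected := by
  classical
  intro hcon
  have hadj : ∀ x y, (symmDiff G G').Adj x y ↔
      (G.Adj x y ∧ ¬ G'.Adj x y) ∨ (G'.Adj x y ∧ ¬ G.Adj x y) := by
    intro x y
    simp [symmDiff_def]
  have hle : ∀ x y, (symmDiff G G').Adj x y → squareCycle16.Adj x y := by
    intro x y h
    rcases (hadj x y).1 h with h | h
    · exact hG h.1
    · exact hG' h.1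
  -- the graphs agree at the two gaps
  have hagree : ∀ k, (k = i ∨ k = j) → (G.Adj k (k + 1) ↔ G'.Adj k (k + 1)) ∧
      (G.Adj k (k + 2) ↔ G'.Adj k (k + 2)) ∧ (G.Adj (k - 1) (k + 1) ↔ G'.Adj (k - 1) (k + 1)) := by
    intro k hk
    have h : pattern k G = pattern k G' := by
      rcases hk with rfl | rfl
      · exact hi
      · exact hj
    simpa [pattern] using h
  have hnot : ∀ x y, (symmDiff G G').Adj x y → x ∈ interval i j → y ∈ interval i j := by
    intro x y h hx
    by_contra hy
    obtain ⟨k, hk, hcase⟩ := crossing i j hij x y (hle x y h) hx hy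
    obtain ⟨h1, h2, h3⟩ := hagree k hk
    rcases hcase with ⟨rfl, rfl⟩ | ⟨rfl, rfl⟩ | ⟨rfl, rfl⟩ | ⟨rfl, rfl⟩ | ⟨rfl, rfl⟩ | ⟨rfl, rfl⟩
    · rw [hadj] at h
      tauto
    · rw [hadj] at h
      tauto
    · rw [hadj] at h
      tauto
    · rw [hadj, G.adj_comm, G'.adj_comm] at h
      tauto
    · rw [hadj, G.adj_comm, G'.adj_comm] at h
      tauto
    · rw [hadj, G.adj_comm, G'.adj_comm] at h
      tauto
  have hreach : ∀ x y, (symmDiff G G').Reachable x y → x ∈ interval i j → y ∈ interval i j := by
    intro x y h hx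
    obtain ⟨p⟩ := h
    induction p with
    | nil => exact hx
    | cons hadj' p ih => exact ih (hnot _ _ hadj' hx)
  exact notMem_interval_left i j (hreach j i (hcon.preconnected j i) (mem_interval_right i j hij))

/-- Counting pairs with equal values. -/
theorem card_pairs_ge {α β : Type*} [DecidableEq α] [Fintype β] [DecidableEq β] (C : Finset α)
    (f : α → β) :
    2 * ((C.card : ℤ) - Fintype.card β) ≤ ((C.offDiag.filter fun p => f p.1 = f p.2).card : ℤ) := by
  have h1 : ((C.offDiag.filter fun p => f p.1 = f p.2).card : ℤ) =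
      ∑ b : β, (((C.filter fun a => f a = b).card : ℤ) * ((C.filter fun a => f a = b).card - 1)) := by
    have h2 : C.offDiag.filter (fun p => f p.1 = f p.2) =
        (univ : Finset β).biUnion fun b => (C.filter fun a => f a = b).offDiag := by
      ext ⟨x, y⟩
      simp only [mem_filter, mem_offDiag, mem_biUnion, mem_univ, true_and]
      constructor
      · rintro ⟨⟨hx, hy, hne⟩, hxy⟩
        exact ⟨f y, ⟨hx, hxy⟩, ⟨hy, rfl⟩, hne⟩
      · rintro ⟨b, ⟨hx, hxb⟩, ⟨hy, hyb⟩, hne⟩
        exact ⟨⟨hx, hy, hne⟩, hxb.trans hyb.symm⟩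
    rw [h2, card_biUnion]
    · push_cast
      refine sum_congr rfl fun b _ => ?_
      rw [offDiag_card, Nat.cast_sub (Nat.le_mul_self _)]
      push_cast
      ring
    · intro b _ b' _ hbb
      rw [Function.onFun, disjoint_left]
      rintro ⟨x, y⟩ h h'
      simp only [mem_offDiag, mem_filter] at h h'
      exact hbb (h.1.2.symm.trans h'.1.2)
  rw [h1]
  have h3 : (C.card : ℤ) = ∑ b : β, ((C.filter fun a => f a = b).card : ℤ) := by
    rw [card_eq_sum_card_fiberwise (f := f) (t := univ) (fun _ _ => by simp)]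
    push_cast
    rfl
  have h4 : (Fintype.card β : ℤ) = ∑ _b : β, (1 : ℤ) := by simp
  rw [h3, h4, ← sum_sub_distrib, mul_sum]
  refine sum_le_sum fun b _ => ?_
  set c : ℤ := ((C.filter fun a => f a = b).card : ℤ) with hc
  have : 0 ≤ (c - 1) * (c - 2) := by
    rcases le_or_gt c 1 with h | h
    · exact mul_nonneg_of_nonpos_of_nonpos (by linarith) (by linarith)
    · exact mul_nonneg (by linarith) (by linarith)
  nlinarith

/-- Every connectivity code for the square of the 16-cycle has at most 12 members. -/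
theorem code_card_le {𝒢 : Finset (SimpleGraph (ZMod 16))}
    (h : IsConnectivityCode squareCycle16 𝒢) : 𝒢.card ≤ 12 := by
  classical
  by_contra hcard
  push Not at hcard
  obtain ⟨C, hC𝒢, hC⟩ := exists_subset_card_eq (show 13 ≤ 𝒢.card from hcard)
  set P : ZMod 16 → Finset (SimpleGraph (ZMod 16) × SimpleGraph (ZMod 16)) :=
    fun i => C.offDiag.filter fun p => pattern i p.1 = pattern i p.2 with hP
  have hPcard : ∀ i, 10 ≤ (P i).card := by
    intro i
    have h1 := card_pairs_ge C (pattern i)
    rw [hC] at h1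
    simp only [Fintype.card_prod, Fintype.card_bool] at h1
    have h2 : (10 : ℤ) ≤ ((P i).card : ℤ) := by
      refine le_trans ?_ h1
      norm_num
    exact_mod_cast h2
  have hdisj : ∀ i ∈ (univ : Finset (ZMod 16)), ∀ j ∈ (univ : Finset (ZMod 16)), i ≠ j →
      Disjoint (P i) (P j) := by
    intro i _ j _ hij
    rw [disjoint_left]
    rintro ⟨G, G'⟩ h1 h2
    simp only [hP, mem_filter, mem_offDiag] at h1 h2
    obtain ⟨⟨hG, hG', hne⟩, hi⟩ := h1
    have hj := h2.2
    have hcon := h.2 G (hC𝒢 hG) G' (hC𝒢 hG') hne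
    have hle := h.1 G (hC𝒢 hG)
    have hle' := h.1 G' (hC𝒢 hG')
    rcases lt_trichotomy i.val j.val with hlt | heq | hgt
    · exact not_connected_of_pattern hle hle' hlt hi hj hcon
    · exact hij (ZMod.val_injective 16 heq)
    · exact not_connected_of_pattern hle hle' hgt hj hi hcon
  have hsub : (univ : Finset (ZMod 16)).biUnion P ⊆ C.offDiag := by
    intro p hp
    obtain ⟨i, -, hi⟩ := mem_biUnion.1 hp
    exact (mem_filter.1 hi).1
  have h1 := card_le_card hsub
  rw [card_biUnion hdisj, offDiag_card, hC] at h1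
  have h2 : ∑ _i : ZMod 16, 10 ≤ ∑ i : ZMod 16, (P i).card := sum_le_sum fun i _ => hPcard i
  rw [sum_const, card_univ, ZMod.card] at h2
  simp only [smul_eq_mul] at h2
  omega

theorem maxCode_le : maxCode squareCycle16 ≤ 12 := by
  unfold maxCode
  refine csSup_le ⟨0, ∅, ⟨by simp, by simp⟩, rfl⟩ ?_
  rintro k ⟨𝒢, h𝒢, rfl⟩
  exact code_card_le h𝒢

end Pool.Agent.Work.MP_7d4bc7_co
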