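import Mathlib
import Pool.Agent.Work.MP_7d4bc7_co.Defs

/-!
# The square of the 16-cycle is 4-edge-connected
-/

namespace Pool.Agent.Work.MP_7d4bc7_co

open Finset

/-- Four edge-disjoint paths between `x` and `x + 1`, as lists of vertices. -/
def pathList (x : ZMod 16) : Fin 4 → List (ZMod 16)
  | 0 => [x, x + 1]
  | 1 => [x, x + 2, x + 1]
  | 2 => [x, x - 1, x + 1]
  | 3 => [x, x - 2, x - 4, x - 6, x - 8, x - 10, x - 12, x + 3, x + 1]

/-- The edges of a list of vertices. -/
def edgeList : List (ZMod 16) → List (Sym2 (ZMod 16))
  | [] => []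
  | [_] => []
  | a :: b :: l => s(a, b) :: edgeList (b :: l)

theorem edgeList_disjoint (x : ZMod 16) (i j : Fin 4) (hij : i ≠ j) :
    ∀ e ∈ edgeList (pathList x i), e ∉ edgeList (pathList x j) := by
  revert x i j
  decide +kernel

theorem chain_adj (x : ZMod 16) (i : Fin 4) :
    (pathList x i).IsChain squareCycle16.Adj := by
  revert x i
  decide +kernel

theorem reachable_of_chain (G : SimpleGraph (ZMod 16)) :
    ∀ (l : List (ZMod 16)) (a : ZMod 16), (a :: l).IsChain G.Adj →
      ∀ b, (a :: l).getLast? = some b → G.Reachable a b
  | [], a, _, b, hb => by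
      simp only [List.getLast?_singleton, Option.some.injEq] at hb
      rw [hb]
  | c :: l, a, h, b, hb => by
      rw [List.isChain_cons_cons] at h
      have h1 : (c :: l).getLast? = some b := by
        rw [List.getLast?_cons_cons] at hb
        exact hb
      exact (SimpleGraph.Adj.reachable h.1).trans (reachable_of_chain G l c h.2 b h1)

theorem chain_delete {s : Set (Sym2 (ZMod 16))} :
    ∀ (l : List (ZMod 16)), l.IsChain squareCycle16.Adj → (∀ e ∈ edgeList l, e ∉ s) →
      l.IsChain (squareCycle16.deleteEdges s).Adj
  | [], _, _ => List.IsChain.nil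
  | [a], _, _ => List.IsChain.singleton a
  | a :: b :: l, h, hs => by
      rw [List.isChain_cons_cons] at h ⊢
      refine ⟨?_, chain_delete (b :: l) h.2 fun e he => hs e ?_⟩
      · rw [SimpleGraph.deleteEdges_adj]
        exact ⟨h.1, hs _ (by simp [edgeList])⟩
      · simp only [edgeList, List.mem_cons]
        right
        exact he

theorem edgeReachable_succ (x : ZMod 16) : squareCycle16.IsEdgeReachable 4 x (x + 1) := by
  intro s hs
  by_contra hcon
  have hmeet : ∀ i : Fin 4, ∃ e, e ∈ edgeList (pathList x i) ∧ e ∈ s := by
    intro i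
    by_contra h
    push Not at h
    apply hcon
    have hch := chain_delete (pathList x i) (chain_adj x i) h
    fin_cases i
    · exact reachable_of_chain _ _ _ hch _ rfl
    · exact reachable_of_chain _ _ _ hch _ rfl
    · exact reachable_of_chain _ _ _ hch _ rfl
    · exact reachable_of_chain _ _ _ hch _ rfl
  choose e he hes using hmeet
  have hinj : Function.Injective e := by
    intro i j h
    by_contra hij
    exact edgeList_disjoint x i j hij (e i) (he i) (h ▸ he j)
  have h1 : (Set.range e).encard = 4 := by
    rw [← Set.image_univ, hinj.encard_image, Set.encard_univ]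
    simp
  have h2 : (Set.range e).encard ≤ s.encard := Set.encard_le_encard (by
    rintro _ ⟨i, rfl⟩
    exact hes i)
  rw [h1] at h2
  exact absurd hs (not_lt.2 h2)

theorem isEdgeConnected : squareCycle16.IsEdgeConnected 4 := by
  intro u v
  have h : ∀ n : ℕ, squareCycle16.IsEdgeReachable 4 u (u + n) := by
    intro n
    induction n with
    | zero => simp
    | succ n ih =>
      refine ih.trans ?_
      have := edgeReachable_succ (u + n)
      rw [Nat.cast_succ, ← add_assoc]
      exact this
  have h1 := h (v - u).val
  rw [ZMod.natCast_zmod_val, add_sub_cancel] at h1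
  exact h1

end Pool.Agent.Work.MP_7d4bc7_co
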