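import Mathlib
import Pool.Agent.Work.MP_7d4bc7_co.Defs

/-!
# A 5-regular Ramanujan graph with edge-connectivity 4
-/

namespace Pool.Agent.Work.MP_7d4bc7_co

open Finset

/-- A regular graph all of whose eigenfunctions with an eigenvalue of absolute value larger than
`2 √(d - 1)` are constant is Ramanujan. -/
theorem isRamanujan_of_const {V : Type} [Fintype V] [DecidableEq V] [Nonempty V]
    (H : SimpleGraph V) [DecidableRel H.Adj] (d : ℕ) (hreg : H.IsRegularOfDegree d)
    (hconst : ∀ (f : V → ℝ) (lam : ℝ), (∀ x, ((H.adjMatrix ℝ).mulVec f) x = lam * f x) →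
      2 * Real.sqrt ((d : ℝ) - 1) < |lam| → ∀ x y, f x = f y) :
    IsRamanujan H d := by
  refine ⟨hreg, ?_⟩
  intro i hi _
  set hA := H.isHermitian_adjMatrix ℝ with hAdef
  by_contra hcon
  push Not at hcon
  set e := (Fintype.equivOfCardEq (Fintype.card_fin (Fintype.card V)) :
    Fin (Fintype.card V) ≃ V) with he
  have heig : ∀ k, hA.eigenvalues (e k) = hA.eigenvalues₀ k := by
    intro k
    unfold Matrix.IsHermitian.eigenvalues
    rw [he, Equiv.symm_apply_apply]
  have hmul : ∀ k x, ((H.adjMatrix ℝ).mulVec (fun x => hA.eigenvectorBasis (e k) x)) x =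
      hA.eigenvalues₀ k * hA.eigenvectorBasis (e k) x := by
    intro k x
    have h1 := congrFun (hA.mulVec_eigenvectorBasis (e k)) x
    rw [heig k] at h1
    simpa using h1
  have hvec : ∀ k, 2 * Real.sqrt ((d : ℝ) - 1) < |hA.eigenvalues₀ k| →
      ∀ x y, hA.eigenvectorBasis (e k) x = hA.eigenvectorBasis (e k) y := by
    intro k hk
    exact hconst (fun x => hA.eigenvectorBasis (e k) x) (hA.eigenvalues₀ k) (hmul k) hk
  obtain ⟨v⟩ := (inferInstance : Nonempty V)
  have hne : ∀ k, 2 * Real.sqrt ((d : ℝ) - 1) < |hA.eigenvalues₀ k| →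
      hA.eigenvectorBasis (e k) v ≠ 0 := by
    intro k hk h0
    have h1 : hA.eigenvectorBasis (e k) = 0 := by
      ext x
      rw [hvec k hk x v, h0]
      rfl
    exact hA.eigenvectorBasis.orthonormal.ne_zero (e k) h1
  have hval : ∀ k, 2 * Real.sqrt ((d : ℝ) - 1) < |hA.eigenvalues₀ k| →
      hA.eigenvalues₀ k = d := by
    intro k hk
    have h1 := hmul k v
    rw [SimpleGraph.adjMatrix_mulVec_apply, sum_congr rfl fun x _ => hvec k hk x v, sum_const,
      SimpleGraph.card_neighborFinset_eq_degree, hreg v, nsmul_eq_mul] at h1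
    exact (mul_right_cancel₀ (hne k hk) h1).symm
  have hid := hval i hcon
  have hpos : 0 < Fintype.card V := Fintype.card_pos
  set i0 : Fin (Fintype.card V) := ⟨0, hpos⟩ with hi0
  have hle : hA.eigenvalues₀ i ≤ hA.eigenvalues₀ i0 :=
    hA.eigenvalues₀_antitone (Fin.le_def.2 (Nat.zero_le _))
  have h0large : 2 * Real.sqrt ((d : ℝ) - 1) < |hA.eigenvalues₀ i0| := by
    have hd : (0 : ℝ) ≤ d := Nat.cast_nonneg d
    have h1 : |hA.eigenvalues₀ i| ≤ |hA.eigenvalues₀ i0| := by
      rw [hid] at hle ⊢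
      rw [abs_of_nonneg hd, abs_of_nonneg (hd.trans hle)]
      exact hle
    exact lt_of_lt_of_le hcon h1
  have hne' : e i ≠ e i0 := by
    intro h
    have := e.injective h
    apply hi
    rw [this]
  have horth : inner ℝ (hA.eigenvectorBasis (e i)) (hA.eigenvectorBasis (e i0)) = 0 :=
    hA.eigenvectorBasis.orthonormal.2 hne'
  have hinner : inner ℝ (hA.eigenvectorBasis (e i)) (hA.eigenvectorBasis (e i0)) =
      (Fintype.card V : ℝ) *
        (hA.eigenvectorBasis (e i) v * hA.eigenvectorBasis (e i0) v) := by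
    rw [PiLp.inner_apply]
    have h1 : ∀ x : V, inner ℝ (hA.eigenvectorBasis (e i) x) (hA.eigenvectorBasis (e i0) x) =
        hA.eigenvectorBasis (e i) v * hA.eigenvectorBasis (e i0) v := by
      intro x
      rw [hvec i hcon x v, hvec i0 h0large x v]
      simp [mul_comm]
    rw [sum_congr rfl fun x _ => h1 x, sum_const, card_univ, nsmul_eq_mul]
  rw [hinner] at horth
  have hcard : (Fintype.card V : ℝ) ≠ 0 := by exact_mod_cast hpos.ne'
  exact mul_ne_zero hcard (mul_ne_zero (hne i hcon) (hne i0 h0large)) horth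

theorem doubleK6_regular : doubleK6.IsRegularOfDegree 5 := by
  intro x
  revert x
  decide +kernel

theorem doubleK6_const (f : Fin 2 × Fin 6 → ℝ) (lam : ℝ)
    (hf : ∀ x, ((doubleK6.adjMatrix ℝ).mulVec f) x = lam * f x) (hlam : 4 < |lam|) :
    ∀ x y, f x = f y := by
  have key : ∀ x, ((doubleK6.adjMatrix ℝ).mulVec f) x =
      ∑ y, if doubleK6.Adj x y then f y else 0 := by
    intro x
    simp [Matrix.mulVec, dotProduct, SimpleGraph.adjMatrix_apply]
  have hlam' : 4 < lam ∨ lam < -4 := by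
    rcases lt_abs.1 hlam with h | h
    · exact Or.inl h
    · exact Or.inr (by linarith)
  -- a quadratic factor which does not vanish
  have hq : ∀ (a b : ℝ), |a| ≤ 4 → |b| ≤ 4 → (lam - a) * (lam - b) ≠ 0 := by
    intro a b ha hb
    rw [abs_le] at ha hb
    apply mul_ne_zero
    · intro h
      rcases hlam' with h' | h' <;> linarith [ha.1, ha.2]
    · intro h
      rcases hlam' with h' | h' <;> linarith [hb.1, hb.2]
  have h1 : lam + 1 ≠ 0 := by
    intro h
    rcases hlam' with h' | h' <;> linarith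
  have q4 : lam ^ 2 - 2 * lam - 7 ≠ 0 := by
    intro h
    have h2 : (lam - 4) * (lam + 2) = -1 := by linear_combination h
    rcases hlam' with h' | h'
    · nlinarith [mul_pos (sub_pos.2 h') (by linarith : 0 < lam + 2)]
    · nlinarith [mul_pos (by linarith : 0 < 4 - lam) (by linarith : 0 < -lam - 2)]
  have E : ∀ (a b : Fin 2), a ≠ b →
      (f (a, 2) + f (a, 3) + f (a, 4) + f (a, 5) + f (b, 0) = lam * f (a, 0)) ∧
      (f (a, 2) + f (a, 3) + f (a, 4) + f (a, 5) + f (b, 1) = lam * f (a, 1)) ∧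
      (f (a, 0) + f (a, 1) + f (a, 4) + f (a, 5) + f (b, 2) = lam * f (a, 2)) ∧
      (f (a, 0) + f (a, 1) + f (a, 4) + f (a, 5) + f (b, 3) = lam * f (a, 3)) ∧
      (f (a, 0) + f (a, 1) + f (a, 2) + f (a, 3) + f (a, 5) = lam * f (a, 4)) ∧
      (f (a, 0) + f (a, 1) + f (a, 2) + f (a, 3) + f (a, 4) = lam * f (a, 5)) := by
    intro a b hab
    refine ⟨?_, ?_, ?_, ?_, ?_, ?_⟩
    all_goals
      rw [← hf, key, Fintype.sum_prod_type]
      fin_cases a <;> fin_cases b <;> first | exact absurd rfl hab | skip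
    all_goals
      simp [Fin.sum_univ_succ, doubleK6]
      try ring
  obtain ⟨a0, a1, a2, a3, a4, a5⟩ := E 0 1 (by decide)
  obtain ⟨b0, b1, b2, b3, b4, b5⟩ := E 1 0 (by decide)
  have z : ∀ (c u : ℝ), c ≠ 0 → c * u = 0 → u = 0 := fun c u hc h =>
    (mul_eq_zero.1 h).resolve_left hc
  have q1 := hq 1 (-1) (by norm_num) (by norm_num)
  have q2 := hq (-1) (-3) (by norm_num [abs_le]) (by norm_num [abs_le])
  have q3 : lam + 1 ≠ 0 := h1
  have x01 : f (0, 0) - f (0, 1) = 0 := z _ _ q1 (by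
    linear_combination (-lam) * (a0 - a1) - (b0 - b1))
  have x23 : f (0, 2) - f (0, 3) = 0 := z _ _ q1 (by
    linear_combination (-lam) * (a2 - a3) - (b2 - b3))
  have x45 : f (0, 4) - f (0, 5) = 0 := z _ _ q3 (by
    linear_combination (a5 - a4))
  have y01 : f (1, 0) - f (1, 1) = 0 := z _ _ q1 (by
    linear_combination (-lam) * (b0 - b1) - (a0 - a1))
  have y23 : f (1, 2) - f (1, 3) = 0 := z _ _ q1 (by
    linear_combination (-lam) * (b2 - b3) - (a2 - a3))
  have y45 : f (1, 4) - f (1, 5) = 0 := z _ _ q3 (by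
    linear_combination (b5 - b4))
  have hx1 : f (0, 1) = f (0, 0) := (sub_eq_zero.1 x01).symm
  have hx3 : f (0, 3) = f (0, 2) := (sub_eq_zero.1 x23).symm
  have hx5 : f (0, 5) = f (0, 4) := (sub_eq_zero.1 x45).symm
  have hy1 : f (1, 1) = f (1, 0) := (sub_eq_zero.1 y01).symm
  have hy3 : f (1, 3) = f (1, 2) := (sub_eq_zero.1 y23).symm
  have hy5 : f (1, 5) = f (1, 4) := (sub_eq_zero.1 y45).symm
  rw [hx3, hx5] at a0
  rw [hx1, hx5] at a2
  rw [hx1, hx3, hx5] at a4
  rw [hy3, hy5] at b0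
  rw [hy1, hy5] at b2
  rw [hy1, hy3, hy5] at b4
  have x02 : f (0, 0) - f (0, 2) = 0 := z _ _ q2 (by
    linear_combination (-(lam + 2)) * (a0 - a2) - (b0 - b2))
  have y02 : f (1, 0) - f (1, 2) = 0 := z _ _ q2 (by
    linear_combination (-(lam + 2)) * (b0 - b2) - (a0 - a2))
  have hx2 : f (0, 2) = f (0, 0) := (sub_eq_zero.1 x02).symm
  have hy2 : f (1, 2) = f (1, 0) := (sub_eq_zero.1 y02).symm
  rw [hx2] at a0 a4
  rw [hy2] at b0 b4
  have s0 : f (0, 0) - f (1, 0) = 0 := z _ _ q4 (by
    linear_combination (-(lam - 1)) * (a0 - b0) - 2 * (a4 - b4))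
  have hy0 : f (1, 0) = f (0, 0) := (sub_eq_zero.1 s0).symm
  have hx4 : f (0, 4) = f (0, 0) := by
    rw [hy0] at a0
    have : f (0, 4) - f (0, 0) = 0 := z _ _ q3 (by
      linear_combination a0 - a4)
    exact sub_eq_zero.1 this
  have hy4 : f (1, 4) = f (0, 0) := by
    rw [hy0] at b0 b4
    have : f (1, 4) - f (0, 0) = 0 := z _ _ q3 (by
      linear_combination b0 - b4)
    exact sub_eq_zero.1 this
  have all : ∀ x, f x = f (0, 0) := by
    rintro ⟨a, i⟩
    fin_cases a <;> fin_cases i <;> simp [*]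
  intro x y
  rw [all x, all y]

theorem doubleK6_ramanujan : IsRamanujan doubleK6 5 := by
  apply isRamanujan_of_const doubleK6 5 doubleK6_regular
  intro f lam hf hlam
  refine doubleK6_const f lam hf ?_
  have h4 : Real.sqrt 4 = 2 := by
    rw [show (4 : ℝ) = 2 ^ 2 by norm_num]
    exact Real.sqrt_sq (by norm_num)
  have h5 : ((5 : ℕ) : ℝ) - 1 = 4 := by norm_num
  rw [h5, h4] at hlam
  linarith

/-- Every connectivity code of `doubleK6` has at most `2 ^ 4` members. -/
theorem doubleK6_code {𝒢 : Finset (SimpleGraph (Fin 2 × Fin 6))}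
    (h : IsConnectivityCode doubleK6 𝒢) : 𝒢.card ≤ 16 := by
  classical
  set cut : SimpleGraph (Fin 2 × Fin 6) → (Fin 4 → Bool) := fun G i =>
    decide (G.Adj (0, Fin.castLE (by norm_num) i) (1, Fin.castLE (by norm_num) i)) with hcut
  have hinj : Set.InjOn cut (𝒢 : Set (SimpleGraph (Fin 2 × Fin 6))) := by
    intro G hG G' hG' hGG'
    by_contra hne
    have hcon := h.2 G hG G' hG' hne
    have hle := h.1 G hG
    have hle' := h.1 G' hG'
    have hadj : ∀ x y, (symmDiff G G').Adj x y ↔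
        (G.Adj x y ∧ ¬ G'.Adj x y) ∨ (G'.Adj x y ∧ ¬ G.Adj x y) := by
      intro x y
      simp [symmDiff_def]
    have hcross : ∀ i : Fin 6, ¬ (symmDiff G G').Adj (0, i) (1, i) := by
      intro i hi
      have hH : doubleK6.Adj (0, i) (1, i) := by
        rcases (hadj _ _).1 hi with h1 | h1
        · exact hle h1.1
        · exact hle' h1.1
      have hi4 : i.val < 4 := by
        simpa [doubleK6] using hH
      have h1 := congrFun hGG' ⟨i.val, hi4⟩
      have h2 : Fin.castLE (by norm_num : 4 ≤ 6) ⟨i.val, hi4⟩ = i := Fin.ext rfl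
      simp only [hcut, h2] at h1
      have h3 : G.Adj (0, i) (1, i) ↔ G'.Adj (0, i) (1, i) := by simpa using h1
      rw [hadj] at hi
      tauto
    have hstep : ∀ x y, (symmDiff G G').Adj x y → x.1 = 0 → y.1 = 0 := by
      rintro ⟨a, i⟩ ⟨b, j⟩ hxy ha
      by_contra hb
      have hb1 : b = 1 := by
        have : b ≠ 0 := hb
        omega
      have ha0 : a = 0 := ha
      subst hb1 ha0
      have hH : doubleK6.Adj (0, i) (1, j) := by
        rcases (hadj _ _).1 hxy with h1 | h1
        · exact hle h1.1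
        · exact hle' h1.1
      have hij : i = j := by
        rcases hH with h1 | h1
        · exact absurd (show (0 : Fin 2) = 1 from h1.1) (by decide)
        · exact h1.2.1
      subst hij
      exact hcross i hxy
    have hreach : ∀ x y, (symmDiff G G').Reachable x y → x.1 = 0 → y.1 = 0 := by
      intro x y hr hx
      obtain ⟨p⟩ := hr
      induction p with
      | nil => exact hx
      | cons hadj' p ih => exact ih (hstep _ _ hadj' hx)
    have := hreach (0, 0) (1, 0) (hcon.preconnected _ _) rfl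
    exact absurd this (by decide)
  have h1 := Finset.card_le_card_of_injOn cut (t := univ) (fun _ _ => mem_univ _) hinj
  simpa using h1

theorem doubleK6_maxCode : maxCode doubleK6 ≤ 16 := by
  unfold maxCode
  refine csSup_le ⟨0, ∅, ⟨by simp, by simp⟩, rfl⟩ ?_
  rintro k ⟨𝒢, h𝒢, rfl⟩
  exact doubleK6_code h𝒢

end Pool.Agent.Work.MP_7d4bc7_co
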