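import Mathlib
import Pool.Agent.Work.MP_7d4bc7_co.Defs

/-!
# The square of the 16-cycle is Ramanujan
-/

namespace Pool.Agent.Work.MP_7d4bc7_co

open Finset

theorem neighborFinset_eq (x : ZMod 16) :
    squareCycle16.neighborFinset x = {x + 1, x - 1, x + 2, x - 2} := by
  revert x
  decide +kernel

theorem isRegular : squareCycle16.IsRegularOfDegree 4 := by
  intro x
  rw [← SimpleGraph.card_neighborFinset_eq_degree, neighborFinset_eq]
  revert x
  decide

theorem mulVec_apply (f : ZMod 16 → ℝ) (x : ZMod 16) :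
    ((squareCycle16.adjMatrix ℝ).mulVec f) x = f (x + 1) + f (x - 1) + f (x + 2) + f (x - 2) := by
  rw [SimpleGraph.adjMatrix_mulVec_apply, neighborFinset_eq]
  have h : ∀ x : ZMod 16, x + 1 ∉ ({x - 1, x + 2, x - 2} : Finset (ZMod 16)) ∧
      x - 1 ∉ ({x + 2, x - 2} : Finset (ZMod 16)) ∧ x + 2 ∉ ({x - 2} : Finset (ZMod 16)) := by
    decide
  obtain ⟨h1, h2, h3⟩ := h x
  rw [sum_insert h1, sum_insert h2, sum_insert h3, sum_singleton]
  ring

theorem sum_shift (g : ZMod 16 → ℝ) (c : ZMod 16) : ∑ x, g (x + c) = ∑ x, g x :=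
  Equiv.sum_comp (Equiv.addRight c) g

theorem sqrt_three_bounds : (1.73 : ℝ) < Real.sqrt 3 := by
  rw [Real.lt_sqrt (by norm_num)]
  norm_num

/-- A function on the 16-cycle which is an eigenfunction with eigenvalue `2` is constant. -/
theorem const_of_harmonic (f : ZMod 16 → ℝ) (h : ∀ x, f (x + 1) + f (x - 1) = 2 * f x) (x : ZMod 16) :
    f (x + 1) = f x := by
  have h1 : ∑ x, (f (x + 1) - f x) ^ 2 = 0 := by
    have e1 : ∑ x, f (x + 1) ^ 2 = ∑ x, f x ^ 2 := sum_shift (fun x => f x ^ 2) 1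
    have e2 : ∑ x, f (x + 1) * f x = ∑ x, f x * f (x - 1) := by
      rw [← sum_shift (fun x => f x * f (x - 1)) 1]
      exact sum_congr rfl fun x _ => by rw [add_sub_cancel_right]
    have e3 : ∑ x, (f x * f (x + 1) + f x * f (x - 1)) = ∑ x, 2 * f x ^ 2 := by
      refine sum_congr rfl fun x _ => ?_
      have := h x
      linear_combination (f x) * this
    rw [sum_add_distrib] at e3
    have e4 : ∑ x, f x * f (x + 1) = ∑ x, f (x + 1) * f x :=
      sum_congr rfl fun x _ => mul_comm _ _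
    have e5 : ∑ x, (f (x + 1) - f x) ^ 2 = ∑ x, f (x + 1) ^ 2 - 2 * ∑ x, f (x + 1) * f x +
        ∑ x, f x ^ 2 := by
      rw [mul_sum, ← sum_sub_distrib, ← sum_add_distrib]
      exact sum_congr rfl fun x _ => by ring
    rw [← mul_sum] at e3
    linarith
  have h2 := (sum_eq_zero_iff_of_nonneg (fun x _ => sq_nonneg (f (x + 1) - f x))).1 h1 x
    (mem_univ x)
  have h3 := pow_eq_zero_iff (two_ne_zero) |>.1 h2
  linarith

theorem const_of_succ {f : ZMod 16 → ℝ} (h : ∀ x, f (x + 1) = f x) (x : ZMod 16) : f x = f 0 := by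
  have h1 : ∀ n : ℕ, f (n : ZMod 16) = f 0 := by
    intro n
    induction n with
    | zero => simp
    | succ n ih => rw [Nat.cast_succ, h, ih]
  have h2 := h1 x.val
  rwa [ZMod.natCast_zmod_val] at h2

/-- Doubling. -/
theorem doubling {f : ZMod 16 → ℝ} {c : ZMod 16} {v : ℝ}
    (h : ∀ x, f (x + c) + f (x - c) = v * f x) (x : ZMod 16) :
    f (x + (c + c)) + f (x - (c + c)) = (v ^ 2 - 2) * f x := by
  have h1 := h (x + c)
  have h2 := h (x - c)
  have h3 := h x
  rw [add_sub_cancel_right, add_assoc] at h1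
  rw [sub_add_cancel, sub_sub] at h2
  linear_combination h1 + h2 + v * h3

theorem beta_eq_two {β : ℝ} (hβ : 1.885 < β) (h : (((β ^ 2 - 2) ^ 2 - 2) ^ 2 - 2) ^ 2 = 4) :
    β = 2 := by
  have hV2 : (1.55 : ℝ) < β ^ 2 - 2 := by nlinarith
  have hV4 : (0.4 : ℝ) < (β ^ 2 - 2) ^ 2 - 2 := by nlinarith
  have h8 : ((β ^ 2 - 2) ^ 2 - 2) ^ 2 - 2 = 2 := by
    have h1 : (((β ^ 2 - 2) ^ 2 - 2) ^ 2 - 4) * ((β ^ 2 - 2) ^ 2 - 2) ^ 2 = 0 := by
      linear_combination h
    rcases mul_eq_zero.1 h1 with h2 | h2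
    · linarith
    · have h3 := pow_eq_zero_iff (two_ne_zero) |>.1 h2
      linarith
  have h4 : (β ^ 2 - 2) ^ 2 - 2 = 2 := by
    have h1 : ((β ^ 2 - 2) ^ 2 - 4) * (β ^ 2 - 2) ^ 2 = 0 := by
      linear_combination h8
    rcases mul_eq_zero.1 h1 with h2 | h2
    · linarith
    · have h3 := pow_eq_zero_iff (two_ne_zero) |>.1 h2
      linarith
  have h2 : β ^ 2 - 2 = 2 := by
    have h1 : (β ^ 2 - 4) * β ^ 2 = 0 := by
      linear_combination h4
    rcases mul_eq_zero.1 h1 with h2 | h2
    · linarith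
    · have h3 := pow_eq_zero_iff (two_ne_zero) |>.1 h2
      linarith
  have h0 : (β - 2) * (β + 2) = 0 := by linear_combination h2
  rcases mul_eq_zero.1 h0 with h1 | h1 <;> linarith

theorem sum_const16 (c : ℝ) : ∑ _x : ZMod 16, c = 16 * c := by
  rw [sum_const, card_univ, ZMod.card]
  simp

/-- Eigenfunctions of the square of the 16-cycle with large eigenvalue are constant. -/
theorem eigen_const (f : ZMod 16 → ℝ) (lam : ℝ)
    (hf : ∀ x, f (x + 1) + f (x - 1) + f (x + 2) + f (x - 2) = lam * f x)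
    (hlam : 2 * Real.sqrt 3 < |lam|) (x : ZMod 16) : f x = f 0 := by
  have hs3 := sqrt_three_bounds
  rcases lt_abs.1 hlam with hpos | hneg
  · -- large positive eigenvalue
    have hlam' : (3.46 : ℝ) < lam := by linarith
    set s := Real.sqrt (9 + 4 * lam) with hs
    have hs2 : s ^ 2 = 9 + 4 * lam := Real.sq_sqrt (by linarith)
    have hs0 : (4.77 : ℝ) < s := by
      rw [hs, Real.lt_sqrt (by norm_num)]
      norm_num
      linarith
    set β := (s - 1) / 2 with hβ
    have hβlam : β ^ 2 + β - 2 = lam := by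
      have : s = 2 * β + 1 := by rw [hβ]; ring
      rw [this] at hs2
      nlinarith
    have hβ0 : (1.885 : ℝ) < β := by rw [hβ]; linarith
    set g : ZMod 16 → ℝ := fun x => f (x + 1) + f (x - 1) - β * f x with hg
    have hgrec : ∀ x, g (x + 1) + g (x - 1) = -(1 + β) * g x := by
      intro x
      simp only [hg]
      have h1 := hf x
      have e1 : x + 1 + 1 = x + 2 := by ring
      have e2 : x + 1 - 1 = x := by ring
      have e3 : x - 1 + 1 = x := by ring
      have e4 : x - 1 - 1 = x - 2 := by ring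
      rw [e1, e2, e3, e4]
      rw [← hβlam] at h1
      linear_combination h1
    obtain ⟨x0, -, hx0⟩ := exists_max_image (univ : Finset (ZMod 16)) (fun x => |g x|)
      ⟨0, mem_univ 0⟩
    have hgx0 : |g x0| ≤ 0 := by
      have h1 : (1 + β) * |g x0| ≤ 2 * |g x0| := by
        have h2 : (1 + β) * |g x0| = |g (x0 + 1) + g (x0 - 1)| := by
          rw [hgrec x0, abs_mul, abs_neg, abs_of_pos (by linarith : 0 < 1 + β)]
        rw [h2]
        calc |g (x0 + 1) + g (x0 - 1)| ≤ |g (x0 + 1)| + |g (x0 - 1)| := abs_add_le _ _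
          _ ≤ |g x0| + |g x0| := add_le_add (hx0 _ (mem_univ _)) (hx0 _ (mem_univ _))
          _ = 2 * |g x0| := by ring
      nlinarith [abs_nonneg (g x0)]
    have hg0 : ∀ x, g x = 0 := by
      intro x
      have h1 := hx0 x (mem_univ x)
      exact abs_eq_zero.1 (le_antisymm (h1.trans hgx0) (abs_nonneg _))
    have hB : ∀ x, f (x + 1) + f (x - 1) = β * f x := by
      intro x
      have := hg0 x
      simp only [hg] at this
      linarith
    have hB2 := fun x => doubling hB x
    have hB4 := fun x => doubling hB2 x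
    have hB8 := fun x => doubling hB4 x
    set V2 := β ^ 2 - 2 with hV2
    set V4 := V2 ^ 2 - 2 with hV4
    set V8 := V4 ^ 2 - 2 with hV8
    by_cases hf0 : ∀ x, f x = 0
    · rw [hf0 x, hf0 0]
    · push Not at hf0
      obtain ⟨y, hy⟩ := hf0
      have h8 : ∀ x, 2 * f (x + 8) = V8 * f x := by
        intro x
        have h1 := hB8 x
        have e1 : (1 : ZMod 16) + 1 + (1 + 1) + (1 + 1 + (1 + 1)) = 8 := by decide
        have e2 : x - 8 = x + 8 := by
          have : (8 : ZMod 16) = -8 := by decide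
          rw [sub_eq_add_neg, ← this]
        rw [e1, e2] at h1
        linarith
      have h88 : (V8 ^ 2 - 4) * f y = 0 := by
        have h1 := h8 y
        have h2 := h8 (y + 8)
        have e1 : y + 8 + 8 = y := by
          have : (8 : ZMod 16) + 8 = 0 := by decide
          rw [add_assoc, this, add_zero]
        rw [e1] at h2
        linear_combination (-V8) * h1 - 2 * h2
      have hV8sq : V8 ^ 2 = 4 := by
        rcases mul_eq_zero.1 h88 with h | h
        · linarith
        · exact absurd h hy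
      have hβeq : β = 2 := beta_eq_two hβ0 hV8sq
      rw [hβeq] at hB
      exact const_of_succ (const_of_harmonic f hB) x
  · -- large negative eigenvalue
    have hlam' : lam < -3.46 := by linarith
    have e1 : ∑ x, f (x + 1) ^ 2 = ∑ x, f x ^ 2 := sum_shift (fun x => f x ^ 2) 1
    have e2 : ∑ x, f (x - 1) ^ 2 = ∑ x, f x ^ 2 := by
      rw [← sum_shift (fun x => f (x - 1) ^ 2) 1]
      exact sum_congr rfl fun x _ => by rw [add_sub_cancel_right]
    have e3 : ∑ x, f (x + 1) * f (x - 1) = ∑ x, f x * f (x - 2) := by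
      rw [← sum_shift (fun x => f x * f (x - 2)) 1]
      refine sum_congr rfl fun x _ => ?_
      have : x + 1 - 2 = x - 1 := by ring
      rw [this]
    have e4 : ∑ x, f (x + 1) * f (x - 1) = ∑ x, f x * f (x + 2) := by
      rw [← sum_shift (fun x => f (x + 1) * f (x - 1)) 1]
      refine sum_congr rfl fun x _ => ?_
      have h1 : x + 1 + 1 = x + 2 := by ring
      have h2 : x + 1 - 1 = x := by ring
      rw [h1, h2, mul_comm]
    have e5 : ∑ x, f x * (lam * f x) = ∑ x, ((f (x + 1) + f (x - 1) + f x / 2) ^ 2 -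
        9 / 4 * f x ^ 2) := by
      have h1 : ∑ x, f x * (lam * f x) = ∑ x, f x * f (x + 1) + ∑ x, f x * f (x - 1) +
          ∑ x, f x * f (x + 2) + ∑ x, f x * f (x - 2) := by
        rw [← sum_add_distrib, ← sum_add_distrib, ← sum_add_distrib]
        refine sum_congr rfl fun x _ => ?_
        rw [← hf x]
        ring
      have h2 : ∑ x, ((f (x + 1) + f (x - 1) + f x / 2) ^ 2 - 9 / 4 * f x ^ 2) =
          ∑ x, f (x + 1) ^ 2 + ∑ x, f (x - 1) ^ 2 - 2 * ∑ x, f x ^ 2 +
          2 * ∑ x, f (x + 1) * f (x - 1) + ∑ x, f x * f (x + 1) + ∑ x, f x * f (x - 1) := by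
        rw [mul_sum, mul_sum, ← sum_add_distrib, ← sum_sub_distrib, ← sum_add_distrib,
          ← sum_add_distrib, ← sum_add_distrib]
        refine sum_congr rfl fun x _ => ?_
        ring
      rw [h1, h2, e1, e2, ← e3, ← e4]
      ring
    have e6 : -(9 / 4) * ∑ x, f x ^ 2 ≤ lam * ∑ x, f x ^ 2 := by
      have h1 : lam * ∑ x, f x ^ 2 = ∑ x, f x * (lam * f x) := by
        rw [mul_sum]
        exact sum_congr rfl fun x _ => by ring
      rw [h1, e5, mul_sum]
      refine sum_le_sum fun x _ => ?_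
      nlinarith [sq_nonneg (f (x + 1) + f (x - 1) + f x / 2)]
    have e7 : 0 ≤ ∑ x, f x ^ 2 := sum_nonneg fun x _ => sq_nonneg _
    have e8 : ∑ x, f x ^ 2 = 0 := by nlinarith
    have e9 : ∀ x, f x = 0 := by
      intro x
      have := (sum_eq_zero_iff_of_nonneg (fun x _ => sq_nonneg (f x))).1 e8 x (mem_univ x)
      exact pow_eq_zero_iff (two_ne_zero) |>.1 this
    rw [e9 x, e9 0]

theorem isRamanujan : IsRamanujan squareCycle16 4 := by
  refine ⟨isRegular, ?_⟩
  intro i hi _
  set hA := squareCycle16.isHermitian_adjMatrix ℝ with hAdef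
  have h3 : (2 : ℝ) * Real.sqrt (((4 : ℕ) : ℝ) - 1) = 2 * Real.sqrt 3 := by norm_num
  rw [h3]
  by_contra hcon
  push Not at hcon
  -- the eigenvector attached to an index
  set e := (Fintype.equivOfCardEq (Fintype.card_fin (Fintype.card (ZMod 16))) :
    Fin (Fintype.card (ZMod 16)) ≃ ZMod 16) with he
  have heig : ∀ k, hA.eigenvalues (e k) = hA.eigenvalues₀ k := by
    intro k
    unfold Matrix.IsHermitian.eigenvalues
    rw [he, Equiv.symm_apply_apply]
  have hvec : ∀ k, 2 * Real.sqrt 3 < |hA.eigenvalues₀ k| →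
      ∀ x, hA.eigenvectorBasis (e k) x = hA.eigenvectorBasis (e k) 0 := by
    intro k hk x
    refine eigen_const (fun x => hA.eigenvectorBasis (e k) x) (hA.eigenvalues₀ k) ?_ hk x
    intro y
    have h1 := congrFun (hA.mulVec_eigenvectorBasis (e k)) y
    rw [heig k] at h1
    rw [mulVec_apply] at h1
    rw [h1]
    simp
  have hne : ∀ k, hA.eigenvectorBasis (e k) 0 ≠ 0 ∨ ¬ (2 * Real.sqrt 3 < |hA.eigenvalues₀ k|) := by
    intro k
    by_cases hk : 2 * Real.sqrt 3 < |hA.eigenvalues₀ k|
    · left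
      intro h0
      have h1 : hA.eigenvectorBasis (e k) = 0 := by
        ext x
        rw [hvec k hk x, h0]
        rfl
      have h2 := hA.eigenvectorBasis.orthonormal.ne_zero (e k)
      exact h2 h1
    · right
      exact hk
  have hval : ∀ k, 2 * Real.sqrt 3 < |hA.eigenvalues₀ k| → hA.eigenvalues₀ k = 4 := by
    intro k hk
    have h1 := congrFun (hA.mulVec_eigenvectorBasis (e k)) 0
    rw [heig k, mulVec_apply] at h1
    simp only [Pi.smul_apply, smul_eq_mul] at h1
    rw [hvec k hk, hvec k hk (0 - 1), hvec k hk (0 + 2), hvec k hk (0 - 2)] at h1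
    rcases hne k with h2 | h2
    · have h4 : (hA.eigenvalues₀ k - 4) * hA.eigenvectorBasis (e k) 0 = 0 := by linarith
      rcases mul_eq_zero.1 h4 with h5 | h5
      · linarith
      · exact absurd h5 h2
    · exact absurd hk h2
  have hi4 := hval i hcon
  have hpos : 0 < Fintype.card (ZMod 16) := Fintype.card_pos
  set i0 : Fin (Fintype.card (ZMod 16)) := ⟨0, hpos⟩ with hi0
  have hle : hA.eigenvalues₀ i ≤ hA.eigenvalues₀ i0 :=
    hA.eigenvalues₀_antitone (Fin.le_def.2 (Nat.zero_le _))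
  have h0large : 2 * Real.sqrt 3 < |hA.eigenvalues₀ i0| := by
    have h1 : |hA.eigenvalues₀ i| ≤ |hA.eigenvalues₀ i0| := by
      rw [hi4] at hle ⊢
      rw [abs_of_pos (by norm_num : (0 : ℝ) < 4), abs_of_pos (by linarith)]
      exact hle
    exact lt_of_lt_of_le hcon h1
  have hne' : e i ≠ e i0 := by
    intro h
    have := e.injective h
    apply hi
    rw [this]
  have horth : inner ℝ (hA.eigenvectorBasis (e i)) (hA.eigenvectorBasis (e i0)) = 0 :=
    hA.eigenvectorBasis.orthonormal.2 hne'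
  have hinner : inner ℝ (hA.eigenvectorBasis (e i)) (hA.eigenvectorBasis (e i0)) =
      16 * (hA.eigenvectorBasis (e i) 0 * hA.eigenvectorBasis (e i0) 0) := by
    rw [PiLp.inner_apply]
    have h1 : ∀ x : ZMod 16, inner ℝ (hA.eigenvectorBasis (e i) x) (hA.eigenvectorBasis (e i0) x) =
        hA.eigenvectorBasis (e i) 0 * hA.eigenvectorBasis (e i0) 0 := by
      intro x
      rw [hvec i hcon x, hvec i0 h0large x]
      simp [mul_comm]
    rw [sum_congr rfl fun x _ => h1 x, sum_const16]
  rw [hinner] at horth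
  rcases hne i with h1 | h1
  · rcases hne i0 with h2 | h2
    · have := mul_ne_zero (by norm_num : (16 : ℝ) ≠ 0) (mul_ne_zero h1 h2)
      exact this horth
    · exact h2 h0large
  · exact h1 hcon

end Pool.Agent.Work.MP_7d4bc7_co
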